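import Pool.Agent.V11122.Box.Defs

set_option autoImplicit false

/-! The group of sign changes: its orbit polytopes are boxes. -/

open scoped InnerProductSpace

namespace Pool.Agent.V11122.Box

variable {k : ℕ}

/-- real sign of a Boolean -/
def sg (b : Bool) : ℝ := if b then 1 else -1

theorem sg_mul_self (b : Bool) : sg b * sg b = 1 := by cases b <;> simp [sg]

theorem sg_mul (a b : Bool) : sg a * sg b = sg (a == b) := by
  cases a <;> cases b <;> simp [sg]

theorem sg_true : sg true = 1 := by simp [sg]

theorem abs_sg (b : Bool) : |sg b| = 1 := by cases b <;> simp [sg]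

theorem sg_inj {a b : Bool} (h : sg a = sg b) : a = b := by
  cases a <;> cases b <;> simp [sg] at h ⊢ <;> linarith

theorem sg_ne {a b : Bool} (h : a ≠ b) : sg b = -sg a := by
  cases a <;> cases b <;> simp [sg] at h ⊢

/-- the linear isometry changing signs -/
noncomputable def iso (ε : Fin k → Bool) : E k ≃ₗᵢ[ℝ] E k :=
  LinearIsometryEquiv.piLpCongrRight 2
    (fun i => if ε i then LinearIsometryEquiv.refl ℝ ℝ else LinearIsometryEquiv.neg ℝ)

theorem iso_apply (ε : Fin k → Bool) (x : E k) (i : Fin k) : iso ε x i = sg (ε i) * x i := by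
  simp only [iso, LinearIsometryEquiv.piLpCongrRight_apply]
  cases h : ε i <;> simp [sg]

/-- the group of all sign changes -/
def Gam (k : ℕ) : Subgroup (E k ≃ₗᵢ[ℝ] E k) where
  carrier := {g | ∃ ε : Fin k → Bool, ∀ x i, g x i = sg (ε i) * x i}
  mul_mem' := by
    rintro g h ⟨ε, hε⟩ ⟨δ, hδ⟩
    refine ⟨fun i => ε i == δ i, fun x i => ?_⟩
    change g (h x) i = _
    rw [hε, hδ, ← sg_mul]
    ring
  one_mem' := ⟨fun _ => true, fun x i => by simp [sg]⟩
  inv_mem' := by
    rintro g ⟨ε, hε⟩
    refine ⟨ε, fun x i => ?_⟩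
    have h := hε (g⁻¹ x) i
    have h2 : g (g⁻¹ x) = x := g.apply_symm_apply x
    rw [h2] at h
    rw [h, ← mul_assoc, sg_mul_self, one_mul]

theorem iso_mem (ε : Fin k → Bool) : iso ε ∈ Gam k := ⟨ε, fun x i => iso_apply ε x i⟩

theorem finite_Gam : Finite (Gam k) := by
  have h : ((Gam k : Subgroup (E k ≃ₗᵢ[ℝ] E k)) : Set (E k ≃ₗᵢ[ℝ] E k)) ⊆ Set.range iso := by
    rintro g ⟨ε, hε⟩
    refine ⟨ε, ?_⟩
    ext x i
    rw [iso_apply, hε]
  exact Set.Finite.subset (Set.finite_range _) h

/-- the vertices -/
noncomputable def pt (w : E k) (ε : Fin k → Bool) : E k := WithLp.toLp 2 fun i => sg (ε i) * w i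

@[simp] theorem pt_apply (w : E k) (ε : Fin k → Bool) (i : Fin k) :
    pt w ε i = sg (ε i) * w i := rfl

theorem orb_eq (w : E k) : orb (Gam k) w = Set.range (pt w) := by
  ext x
  constructor
  · rintro ⟨g, ⟨ε, hε⟩, rfl⟩
    refine ⟨ε, ?_⟩
    ext i
    rw [pt_apply, hε]
  · rintro ⟨ε, rfl⟩
    refine ⟨iso ε, iso_mem ε, ?_⟩
    ext i
    rw [iso_apply, pt_apply]

theorem pt_inj {w : E k} (hw : ∀ i, w i ≠ 0) : Function.Injective (pt w) := by
  intro ε δ h
  funext i
  have := congrArg (fun x : E k => x i) h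
  simp only [pt_apply] at this
  exact sg_inj (mul_right_cancel₀ (hw i) this)

theorem mem_orbPoly (w : E k) (z : E k) : z ∈ orbPoly (Gam k) w ↔ ∀ i, |z i| ≤ |w i| := by
  let e := EuclideanSpace.equiv (Fin k) ℝ
  have h1 : e '' (orb (Gam k) w) = Set.pi Set.univ (fun i => ({w i, -w i} : Set ℝ)) := by
    rw [orb_eq]
    ext y
    constructor
    · rintro ⟨_, ⟨ε, rfl⟩, rfl⟩ i -
      change sg (ε i) * w i = w i ∨ sg (ε i) * w i = -w i
      cases ε i <;> simp [sg]
    · intro hy
      refine ⟨e.symm y, ⟨fun i => decide (y i = w i), ?_⟩, e.apply_symm_apply y⟩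
      ext i
      rw [pt_apply]
      change _ = y i
      rcases hy i (Set.mem_univ i) with h | h
      · rw [h]; simp [sg]
      · rw [Set.mem_singleton_iff] at h
        by_cases h2 : y i = w i
        · rw [h2]; simp [sg]
        · have h4 : ¬ (-w i = w i) := by rwa [h] at h2
          simp [sg, h, h4]
  have h2 : e '' (orbPoly (Gam k) w) =
      Set.pi Set.univ (fun i => convexHull ℝ ({w i, -w i} : Set ℝ)) := by
    rw [← convexHull_pi, ← h1, orbPoly]
    exact e.toLinearEquiv.toLinearMap.image_convexHull _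
  have h3 : z ∈ orbPoly (Gam k) w ↔ e z ∈ e '' (orbPoly (Gam k) w) :=
    (e.injective.mem_set_image).symm
  rw [h3, h2]
  constructor
  · intro h i
    have h4 : z i ∈ convexHull ℝ ({w i, -w i} : Set ℝ) := h i (Set.mem_univ i)
    rw [convexHull_pair, segment_eq_uIcc, Set.mem_uIcc] at h4
    rw [abs_le]
    rcases h4 with h4 | h4
    · have := neg_abs_le (w i)
      have := le_abs_self (w i)
      have := neg_le_abs (w i)
      constructor <;> linarith [h4.1, h4.2]
    · have := neg_abs_le (w i)
      have := le_abs_self (w i)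
      have := neg_le_abs (w i)
      constructor <;> linarith [h4.1, h4.2]
  · intro h i _
    change z i ∈ convexHull ℝ ({w i, -w i} : Set ℝ)
    rw [convexHull_pair, segment_eq_uIcc, Set.mem_uIcc]
    have h4 := abs_le.1 (h i)
    rcases le_total 0 (w i) with h5 | h5
    · rw [abs_of_nonneg h5] at h4
      right
      exact h4
    · rw [abs_of_nonpos h5, neg_neg] at h4
      left
      exact h4

theorem pt_mem (w : E k) (ε : Fin k → Bool) : pt w ε ∈ orbPoly (Gam k) w := by
  rw [mem_orbPoly]
  intro i
  rw [pt_apply, abs_mul, abs_sg, one_mul]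

theorem convex_orbPoly (w : E k) : Convex ℝ (orbPoly (Gam k) w) := convex_convexHull _ _

theorem abs_pt (w : E k) (ε : Fin k → Bool) (i : Fin k) : |pt w ε i| = |w i| := by
  rw [pt_apply, abs_mul, abs_sg, one_mul]

theorem extreme_aux {a b x y z W : ℝ} (ha : 0 < a) (hb : 0 < b) (hab : a + b = 1)
    (hx : |x| = W) (hy : |y| ≤ W) (hz : |z| ≤ W) (h : a * y + b * z = x) : y = x := by
  rw [abs_le] at hy hz
  rcases abs_choice x with h1 | h1 <;> rw [h1] at hx
  · subst hx
    have hz1 : b * z ≤ b * x := mul_le_mul_of_nonneg_left hz.2 hb.le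
    have hb' : b = 1 - a := by linarith
    have : a * x ≤ a * y := by
      rw [hb'] at h hz1
      linarith
    have := le_of_mul_le_mul_left this ha
    linarith [hy.2]
  · subst hx
    have hz1 : b * x ≤ b * z := mul_le_mul_of_nonneg_left (by linarith [hz.1]) hb.le
    have hb' : b = 1 - a := by linarith
    have : a * y ≤ a * x := by
      rw [hb'] at h hz1
      linarith
    have := le_of_mul_le_mul_left this ha
    linarith [hy.1]

theorem verts_eq (w : E k) : verts (orbPoly (Gam k) w) = Set.range (pt w) := by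
  apply Set.Subset.antisymm
  · rw [← orb_eq]
    exact extremePoints_convexHull_subset
  · rintro _ ⟨ε, rfl⟩
    refine ⟨pt_mem w ε, ?_⟩
    rintro y hy z hz ⟨a, b, ha, hb, hab, h⟩
    rw [mem_orbPoly] at hy hz
    ext i
    apply extreme_aux ha hb hab (abs_pt w ε i) (hy i) (hz i)
    have := congrArg (fun x : E k => x i) h
    simpa using this

theorem finite_verts (w : E k) : (verts (orbPoly (Gam k) w)).Finite := by
  rw [verts_eq]; exact Set.finite_range _

/-- adjacency in the cube -/
def Adj (ε δ : Fin k → Bool) : Prop := ∃ i, ε i ≠ δ i ∧ ∀ j, j ≠ i → ε j = δ j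

theorem inner_eq (x y : E k) : ⟪x, y⟫_ℝ = ∑ i, x i * y i := by
  simp [PiLp.inner_apply, mul_comm]

/-- the vertex with coordinate `i` flipped -/
theorem segment_coord {x y z : E k} (h : z ∈ segment ℝ x y) :
    ∃ t : ℝ, 0 ≤ t ∧ t ≤ 1 ∧ ∀ i, z i = (1 - t) * x i + t * y i := by
  obtain ⟨a, b, ha, hb, hab, rfl⟩ := h
  refine ⟨b, hb, by linarith, fun i => ?_⟩
  have : 1 - b = a := by linarith
  rw [this]
  simp

theorem isEdge_iff {w : E k} (hw : ∀ i, w i ≠ 0) (ε δ : Fin k → Bool) :
    IsEdge (orbPoly (Gam k) w) (pt w ε) (pt w δ) ↔ Adj ε δ := by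
  constructor
  · rintro ⟨-, -, hne, hexp⟩
    have hne' : ε ≠ δ := fun h => hne (by rw [h])
    obtain ⟨i, hi⟩ := Function.ne_iff.1 hne'
    refine ⟨i, hi, ?_⟩
    intro j hji
    by_contra hj
    obtain ⟨l, hl⟩ := hexp ⟨pt w ε, left_mem_segment ℝ _ _⟩
    have hmax : ∀ z, z ∈ segment ℝ (pt w ε) (pt w δ) ↔
        z ∈ orbPoly (Gam k) w ∧ ∀ y ∈ orbPoly (Gam k) w, l y ≤ l z := by
      intro z; rw [hl]; rfl
    have h1 := (hmax _).1 (left_mem_segment ℝ (pt w ε) (pt w δ))
    have h2 := (hmax _).1 (right_mem_segment ℝ (pt w ε) (pt w δ))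
    let a : Fin k → Bool := Function.update ε i (δ i)
    let b : Fin k → Bool := Function.update δ i (ε i)
    have hab : pt w a + pt w b = pt w ε + pt w δ := by
      ext m
      simp only [PiLp.add_apply, pt_apply, a, b]
      by_cases hm : m = i
      · subst hm; simp; ring
      · simp [Function.update_of_ne hm]
    have h3 : l (pt w a) + l (pt w b) = l (pt w ε) + l (pt w δ) := by
      rw [← map_add, hab, map_add]
    have h4 := h1.2 _ (pt_mem w a)
    have h5 := h2.2 _ (pt_mem w b)
    have h6 := h1.2 _ (pt_mem w δ)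
    have h7 := h2.2 _ (pt_mem w ε)
    have h8 : l (pt w a) = l (pt w ε) := by linarith
    have h9 : pt w a ∈ segment ℝ (pt w ε) (pt w δ) := by
      rw [hmax]
      refine ⟨pt_mem w a, fun y hy => ?_⟩
      rw [h8]
      exact h1.2 y hy
    obtain ⟨t, -, -, ht⟩ := segment_coord h9
    have e1 := ht i
    have e2 := ht j
    simp only [pt_apply, a, Function.update_self, Function.update_of_ne hji] at e1 e2
    rw [sg_ne hi] at e1
    rw [sg_ne hj] at e2
    have hwi := hw i
    have hwj := hw j
    have s1 := sg_mul_self (ε i)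
    have s2 := sg_mul_self (ε j)
    have sw1 : sg (ε i) * w i ≠ 0 := by
      apply mul_ne_zero _ hwi
      intro h; rw [h] at s1; simp at s1
    have sw2 : sg (ε j) * w j ≠ 0 := by
      apply mul_ne_zero _ hwj
      intro h; rw [h] at s2; simp at s2
    have t1 : (1 - t) * (sg (ε i) * w i) = 0 := by linarith
    have t2 : t * (sg (ε j) * w j) = 0 := by linarith
    rcases mul_eq_zero.1 t1 with h | h
    · rcases mul_eq_zero.1 t2 with h' | h'
      · linarith
      · exact sw2 h'
    · exact sw1 h
  · rintro ⟨i, hi, hrest⟩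
    have hne : pt w ε ≠ pt w δ := fun h => hi (by rw [pt_inj hw h])
    refine ⟨by rw [verts_eq]; exact ⟨ε, rfl⟩, by rw [verts_eq]; exact ⟨δ, rfl⟩, hne, ?_⟩
    intro _
    -- the exposing functional
    let c : E k := WithLp.toLp 2 fun j => if j = i then 0 else pt w ε j
    refine ⟨innerSL ℝ c, ?_⟩
    have hl : ∀ z : E k, innerSL ℝ c z = ∑ j, (if j = i then 0 else pt w ε j) * z j := by
      intro z
      rw [innerSL_apply_apply, inner_eq]
    have hbound : ∀ z ∈ orbPoly (Gam k) w, ∀ j,
        (if j = i then 0 else pt w ε j) * z j ≤ if j = i then 0 else |w j| * |w j| := by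
      intro z hz j
      rw [mem_orbPoly] at hz
      by_cases hj : j = i
      · simp [hj]
      · simp only [hj, if_false]
        calc pt w ε j * z j ≤ |pt w ε j * z j| := le_abs_self _
          _ = |w j| * |z j| := by rw [abs_mul, abs_pt]
          _ ≤ |w j| * |w j| := mul_le_mul_of_nonneg_left (hz j) (abs_nonneg _)
    have hval : ∀ z : E k, (∀ j, j ≠ i → z j = pt w ε j) →
        innerSL ℝ c z = ∑ j, if j = i then 0 else |w j| * |w j| := by
      intro z hz
      rw [hl]
      apply Finset.sum_congr rfl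
      intro j _
      by_cases hj : j = i
      · simp [hj]
      · simp only [hj, if_false]
        rw [hz j hj, ← abs_pt w ε j, abs_mul_abs_self]
    ext z
    constructor
    · intro hz
      have hzQ : z ∈ orbPoly (Gam k) w :=
        (convex_orbPoly w).segment_subset (pt_mem w ε) (pt_mem w δ) hz
      obtain ⟨t, -, -, ht⟩ := segment_coord hz
      refine ⟨hzQ, fun y hy => ?_⟩
      rw [hval z]
      · rw [hl]
        exact Finset.sum_le_sum fun j _ => hbound y hy j
      · intro j hj
        rw [ht j, pt_apply, pt_apply, hrest j hj]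
        ring
    · rintro ⟨hzQ, hz⟩
      have h1 := hz _ (pt_mem w ε)
      rw [hval (pt w ε) (fun j _ => rfl), hl z] at h1
      have h2 : ∀ j ∈ Finset.univ, (if j = i then 0 else pt w ε j) * z j =
          if j = i then 0 else |w j| * |w j| :=
        (Finset.sum_eq_sum_iff_of_le fun j _ => hbound z hzQ j).1
          (le_antisymm (Finset.sum_le_sum fun j _ => hbound z hzQ j) h1)
      have h3 : ∀ j, j ≠ i → z j = pt w ε j := by
        intro j hj
        have h4 := h2 j (Finset.mem_univ j)
        simp only [hj, if_false] at h4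
        rw [← abs_pt w ε j, abs_mul_abs_self] at h4
        have h5 : pt w ε j ≠ 0 := by
          intro h0
          have := abs_pt w ε j
          rw [h0, abs_zero] at this
          exact hw j (abs_eq_zero.1 this.symm)
        exact mul_left_cancel₀ h5 h4
      rw [mem_orbPoly] at hzQ
      have h6 := abs_le.1 (hzQ i)
      have hdi : pt w δ i = -pt w ε i := by
        rw [pt_apply, pt_apply, sg_ne hi]; ring
      have hx0 : pt w ε i ≠ 0 := by
        intro h0
        have := abs_pt w ε i
        rw [h0, abs_zero] at this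
        exact hw i (abs_eq_zero.1 this.symm)
      have hxa := abs_pt w ε i
      -- the parameter
      have key : ∃ t : ℝ, 0 ≤ t ∧ t ≤ 1 ∧ z i = (1 - t) * pt w ε i + t * pt w δ i := by
        refine ⟨(1 - z i / pt w ε i) / 2, ?_, ?_, ?_⟩
        · have : z i / pt w ε i ≤ 1 := by
            have : |z i / pt w ε i| ≤ 1 := by
              rw [abs_div, hxa]
              exact div_le_one_of_le₀ (hzQ i) (abs_nonneg _)
            exact (le_abs_self _).trans this
          linarith
        · have : -1 ≤ z i / pt w ε i := by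
            have : |z i / pt w ε i| ≤ 1 := by
              rw [abs_div, hxa]
              exact div_le_one_of_le₀ (hzQ i) (abs_nonneg _)
            exact (abs_le.1 this).1
          linarith
        · rw [hdi]
          field_simp
          ring
      obtain ⟨t, ht0, ht1, ht⟩ := key
      refine ⟨1 - t, t, by linarith, ht0, by ring, ?_⟩
      ext j
      by_cases hj : j = i
      · subst hj
        rw [ht]; simp
      · rw [h3 j hj]
        have : pt w δ j = pt w ε j := by rw [pt_apply, pt_apply, hrest j hj]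
        simp only [PiLp.add_apply, PiLp.smul_apply, smul_eq_mul, this]
        ring

end Pool.Agent.V11122.Box
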