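import Mathlib

set_option autoImplicit false

/-! Orbit polytopes, Izmestiev's Colin de Verdière matrix (off-diagonal part), the associated random
walk, its second eigenvalue, and strata of combinatorial types. -/

open MeasureTheory
open scoped InnerProductSpace

namespace Pool.Agent.V11122.Box

/-- Euclidean `k`-space. -/
abbrev E (k : ℕ) := EuclideanSpace ℝ (Fin k)

variable {k : ℕ}

/-- The orbit of `w` under a group `Γ` of linear isometries. -/
def orb (Γ : Subgroup (E k ≃ₗᵢ[ℝ] E k)) (w : E k) : Set (E k) := {x | ∃ g ∈ Γ, g w = x}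

/-- The orbit polytope `Q_w`, the convex hull of the orbit of `w`. -/
def orbPoly (Γ : Subgroup (E k ≃ₗᵢ[ℝ] E k)) (w : E k) : Set (E k) := convexHull ℝ (orb Γ w)

/-- The vertices of a polytope. -/
def verts (Q : Set (E k)) : Set (E k) := Q.extremePoints ℝ

/-- `{x, y}` is an edge of `Q`: `x ≠ y` are vertices and the segment `[x, y]` is an (exposed) face
of `Q`. -/
def IsEdge (Q : Set (E k)) (x y : E k) : Prop :=
  x ∈ verts Q ∧ y ∈ verts Q ∧ x ≠ y ∧ IsExposed ℝ Q (segment ℝ x y)

/-- The polar dual of `Q`. -/
def polarDual (Q : Set (E k)) : Set (E k) := {z | ∀ x ∈ Q, ⟪x, z⟫_ℝ ≤ 1}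

/-- The intersection of the facets of the polar dual which are dual to the vertices `x`, `y`. -/
def dualFace (Q : Set (E k)) (x y : E k) : Set (E k) :=
  {z | z ∈ polarDual Q ∧ ⟪x, z⟫_ℝ = 1 ∧ ⟪y, z⟫_ℝ = 1}

open Classical in
/-- The off-diagonal entries `M_{st}` of the Colin de Verdière matrix:
`-vol_{k-2}(F_{st}) / (‖w_s‖ ‖w_t‖ sin θ_{st})` if `{w_s, w_t}` is an edge and `0` otherwise
(the diagonal entries do not enter the random walk matrix, and the value here is `0`). -/
noncomputable def cdv (Q : Set (E k)) (x y : E k) : ℝ :=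
  if IsEdge Q x y then
    -((μH[(k : ℝ) - 2] (dualFace Q x y)).toReal /
      (‖x‖ * ‖y‖ * Real.sin (InnerProductGeometry.angle x y)))
  else 0

/-- The random walk matrix: `T_{st} = -M_{st} / c_s` with `c_s = ∑_{t ≠ s} (-M_{st})`, and
`T_{ss} = 0`. -/
noncomputable def walk (Q : Set (E k)) [Fintype (verts Q)] : Matrix (verts Q) (verts Q) ℝ :=
  fun s t => (-cdv Q s t) / ∑ u : verts Q, (-cdv Q s u)

open Classical in
/-- The second largest eigenvalue `λ_1` (counted with multiplicity) of the random walk matrix: the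
entry with index `1` of the decreasing list of the roots of the characteristic polynomial. -/
noncomputable def lambda1 (Q : Set (E k)) : ℝ :=
  if h : (verts Q).Finite then
    letI : Fintype (verts Q) := h.fintype
    ((walk Q).charpoly.roots.sort (· ≥ ·)).getD 1 0
  else 0

/-- The faces of `Q`, ordered by inclusion (for a polytope: the face lattice). -/
abbrev FaceLattice (Q : Set (E k)) := {F : Set (E k) // IsExposed ℝ Q F}

/-- Same combinatorial type: the face lattices are isomorphic. -/
def SameType (Q Q' : Set (E k)) : Prop := Nonempty (FaceLattice Q ≃o FaceLattice Q')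

/-- `Q` is `k`-dimensional. -/
def FullDim (Q : Set (E k)) : Prop := (interior Q).Nonempty

/-- The class of `w`: all `w'` of the sphere of radius `r` such that `Q_{w'}` is `k`-dimensional
and has the same combinatorial type as `Q_w`. -/
def typeClass (Γ : Subgroup (E k ≃ₗᵢ[ℝ] E k)) (r : ℝ) (w : E k) : Set (E k) :=
  {w' | w' ∈ Metric.sphere (0 : E k) r ∧ FullDim (orbPoly Γ w') ∧
    SameType (orbPoly Γ w) (orbPoly Γ w')}

/-- The stratum of `w`: the connected component of `w` in its class. -/
def stratum (Γ : Subgroup (E k ≃ₗᵢ[ℝ] E k)) (r : ℝ) (w : E k) : Set (E k) :=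
  connectedComponentIn (typeClass Γ r w) w

end Pool.Agent.V11122.Box
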