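import Pool.Agent.V11122.Box.Vol

set_option autoImplicit false

/-! `λ_1` is the same for all boxes; the classes and strata of the group of sign changes. -/

open MeasureTheory
open scoped InnerProductSpace

namespace Pool.Agent.V11122.Box

variable {k : ℕ}

open Classical in
/-- the walk matrix of the cube -/
noncomputable def T0 (k : ℕ) : Matrix (Fin k → Bool) (Fin k → Bool) ℝ :=
  fun ε δ => (if Adj ε δ then 1 else 0) / ∑ γ, (if Adj ε γ then (1 : ℝ) else 0)

/-- the common value of `λ_1` -/
noncomputable def lam (k : ℕ) : ℝ := ((T0 k).charpoly.roots.sort (· ≥ ·)).getD 1 0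

/-- the bijection of the sign vectors with the vertices -/
noncomputable def eqv {w : E k} (hw : ∀ i, w i ≠ 0) :
    (Fin k → Bool) ≃ verts (orbPoly (Gam k) w) :=
  Equiv.ofBijective (fun ε => ⟨pt w ε, by rw [verts_eq]; exact ⟨ε, rfl⟩⟩) (by
    constructor
    · intro ε δ h
      exact pt_inj hw (congrArg Subtype.val h)
    · rintro ⟨x, hx⟩
      have hx' := hx
      rw [verts_eq] at hx'
      obtain ⟨ε, hε⟩ := hx'
      exact ⟨ε, Subtype.ext hε⟩)

theorem eqv_apply {w : E k} (hw : ∀ i, w i ≠ 0) (ε : Fin k → Bool) :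
    (eqv hw ε : E k) = pt w ε := rfl

theorem lambda1_eq {w : E k} (hw : ∀ i, w i ≠ 0)
    (hc : ∀ ε δ : Fin k → Bool, Adj ε δ →
      cdv (orbPoly (Gam k) w) (pt w ε) (pt w δ) = -(1 / (2 * ∏ m, |w m|))) :
    lambda1 (orbPoly (Gam k) w) = lam k := by
  classical
  have hκ : 0 < 1 / (2 * ∏ m, |w m|) := by
    have : 0 < ∏ m, |w m| := Finset.prod_pos fun m _ => abs_pos.2 (hw m)
    positivity
  have hc' : ∀ ε δ : Fin k → Bool,
      -cdv (orbPoly (Gam k) w) (pt w ε) (pt w δ) =
        (1 / (2 * ∏ m, |w m|)) * (if Adj ε δ then 1 else 0) := by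
    intro ε δ
    by_cases h : Adj ε δ
    · rw [hc ε δ h, if_pos h]; ring
    · rw [if_neg h, cdv, if_neg (fun h' => h ((isEdge_iff hw ε δ).1 h'))]; ring
  unfold lambda1
  rw [dif_pos (finite_verts w)]
  letI : Fintype (verts (orbPoly (Gam k) w)) := (finite_verts w).fintype
  have hT : walk (orbPoly (Gam k) w) = Matrix.reindex (eqv hw) (eqv hw) (T0 k) := by
    ext s t
    obtain ⟨ε, rfl⟩ := (eqv hw).surjective s
    obtain ⟨δ, rfl⟩ := (eqv hw).surjective t
    rw [Matrix.reindex_apply, Matrix.submatrix_apply, Equiv.symm_apply_apply,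
      Equiv.symm_apply_apply, walk]
    have hs : ∑ u : verts (orbPoly (Gam k) w), (-cdv (orbPoly (Gam k) w) (eqv hw ε) u) =
        ∑ γ : Fin k → Bool, (1 / (2 * ∏ m, |w m|)) * (if Adj ε γ then 1 else 0) := by
      rw [← Equiv.sum_comp (eqv hw)]
      apply Finset.sum_congr rfl
      intro γ _
      rw [eqv_apply, eqv_apply, hc']
    rw [hs, eqv_apply, eqv_apply, hc', ← Finset.mul_sum, T0]
    rw [mul_div_mul_left _ _ hκ.ne']
  rw [lam]
  congr 3
  have h2 : (walk (orbPoly (Gam k) w)).charpoly = (T0 k).charpoly := by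
    rw [hT, Matrix.charpoly_reindex]
  convert h2

/-- diagonal maps -/
noncomputable def dg (c : Fin k → ℝ) : E k →L[ℝ] E k :=
  LinearMap.toContinuousLinearMap
    { toFun := fun x => WithLp.toLp 2 fun i => c i * x i
      map_add' := fun x y => by ext i; simp [mul_add]
      map_smul' := fun t x => by ext i; simp; ring }

theorem dg_apply (c : Fin k → ℝ) (x : E k) (i : Fin k) : dg c x i = c i * x i := rfl

theorem dg_dg {c d : Fin k → ℝ} (h : ∀ i, c i * d i = 1) (x : E k) : dg c (dg d x) = x := by
  ext i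
  rw [dg_apply, dg_apply, ← mul_assoc, h, one_mul]

theorem exposed_image {c d : Fin k → ℝ} (hdc : ∀ i, d i * c i = 1)
    {Q F : Set (E k)} (hF : IsExposed ℝ Q F) : IsExposed ℝ (dg c '' Q) (dg c '' F) := by
  rintro ⟨_, ⟨x, hx, rfl⟩⟩
  obtain ⟨l, hl⟩ := hF ⟨x, hx⟩
  refine ⟨l.comp (dg d), ?_⟩
  ext y
  constructor
  · rintro ⟨x, hx, rfl⟩
    rw [hl] at hx
    refine ⟨⟨x, hx.1, rfl⟩, ?_⟩
    rintro _ ⟨z, hz, rfl⟩
    simp only [ContinuousLinearMap.comp_apply, dg_dg hdc]
    exact hx.2 z hz
  · rintro ⟨⟨x, hx, rfl⟩, hmax⟩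
    refine ⟨x, ?_, rfl⟩
    rw [hl]
    refine ⟨hx, fun z hz => ?_⟩
    have := hmax _ ⟨z, hz, rfl⟩
    simpa only [ContinuousLinearMap.comp_apply, dg_dg hdc] using this

theorem dg_image {w w' : E k} (hw : ∀ i, w i ≠ 0) (hw' : ∀ i, w' i ≠ 0) :
    dg (fun i => w' i / w i) '' orbPoly (Gam k) w = orbPoly (Gam k) w' := by
  ext z
  constructor
  · rintro ⟨x, hx, rfl⟩
    rw [mem_orbPoly] at hx ⊢
    intro i
    rw [dg_apply, abs_mul, abs_div]
    have h1 := abs_pos.2 (hw i)
    have h2 := abs_pos.2 (hw' i)
    rw [div_mul_eq_mul_div, div_le_iff₀ h1]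
    exact mul_le_mul_of_nonneg_left (hx i) h2.le
  · intro hz
    refine ⟨dg (fun i => w i / w' i) z, ?_, ?_⟩
    · rw [mem_orbPoly] at hz ⊢
      intro i
      rw [dg_apply, abs_mul, abs_div]
      have h1 := abs_pos.2 (hw i)
      have h2 := abs_pos.2 (hw' i)
      rw [div_mul_eq_mul_div, div_le_iff₀ h2]
      exact mul_le_mul_of_nonneg_left (hz i) h1.le
    · apply dg_dg
      intro i
      have h1 := hw i
      have h2 := hw' i
      field_simp

theorem sameType {w w' : E k} (hw : ∀ i, w i ≠ 0) (hw' : ∀ i, w' i ≠ 0) :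
    SameType (orbPoly (Gam k) w) (orbPoly (Gam k) w') := by
  have h1 : ∀ i, (w' i / w i) * (w i / w' i) = 1 := by
    intro i
    have h1 := hw i
    have h2 := hw' i
    field_simp
  have h2 : ∀ i, (w i / w' i) * (w' i / w i) = 1 := fun i => by rw [mul_comm]; exact h1 i
  have im1 : ∀ F : Set (E k), dg (fun i => w i / w' i) '' (dg (fun i => w' i / w i) '' F) = F := by
    intro F
    rw [Set.image_image]
    simp only [dg_dg h2, Set.image_id']
  have im2 : ∀ F : Set (E k), dg (fun i => w' i / w i) '' (dg (fun i => w i / w' i) '' F) = F := by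
    intro F
    rw [Set.image_image]
    simp only [dg_dg h1, Set.image_id']
  refine ⟨{ toFun := fun F => ⟨dg (fun i => w' i / w i) '' F.1, ?_⟩
            invFun := fun F => ⟨dg (fun i => w i / w' i) '' F.1, ?_⟩
            left_inv := fun F => Subtype.ext (im1 F.1)
            right_inv := fun F => Subtype.ext (im2 F.1)
            map_rel_iff' := ?_ }⟩
  · have := exposed_image (c := fun i => w' i / w i) h2 F.2
    rwa [dg_image hw hw'] at this
  · have := exposed_image (c := fun i => w i / w' i) h1 F.2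
    rwa [dg_image hw' hw] at this
  · intro F F'
    change dg (fun i => w' i / w i) '' F.1 ⊆ dg (fun i => w' i / w i) '' F'.1 ↔ F.1 ⊆ F'.1
    constructor
    · intro h
      have := Set.image_mono (f := dg (fun i => w i / w' i)) h
      rwa [im1, im1] at this
    · intro h
      exact Set.image_mono h

theorem fullDim_iff (w : E k) : FullDim (orbPoly (Gam k) w) ↔ ∀ i, w i ≠ 0 := by
  constructor
  · intro h i hi
    let S : Submodule ℝ (E k) :=
      { carrier := {z | z i = 0}
        add_mem' := fun {a b} ha hb => by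
          simp only [Set.mem_setOf_eq, PiLp.add_apply] at ha hb ⊢
          rw [ha, hb, add_zero]
        zero_mem' := by simp
        smul_mem' := fun c x hx => by
          simp only [Set.mem_setOf_eq, PiLp.smul_apply] at hx ⊢
          rw [hx, smul_zero] }
    have hsub : orbPoly (Gam k) w ⊆ S := by
      intro z hz
      rw [mem_orbPoly] at hz
      have := hz i
      rw [hi, abs_zero] at this
      exact abs_eq_zero.1 (le_antisymm this (abs_nonneg _))
    have htop := Submodule.eq_top_of_nonempty_interior' S (h.mono (interior_mono hsub))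
    have h1 : (EuclideanSpace.single i (1 : ℝ) : E k) ∈ S := by rw [htop]; trivial
    have h2 : (EuclideanSpace.single i (1 : ℝ) : E k) i = 0 := h1
    simp at h2
  · intro h
    refine ⟨0, ?_⟩
    rw [mem_interior]
    refine ⟨⋂ i, {z : E k | |z i| < |w i|}, ?_, ?_, ?_⟩
    · intro z hz
      rw [mem_orbPoly]
      intro i
      have := Set.mem_iInter.1 hz i
      exact le_of_lt this
    · apply isOpen_iInter_of_finite
      intro i
      exact isOpen_lt (continuous_abs.comp (PiLp.continuous_apply 2 _ i)) continuous_const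
    · rw [Set.mem_iInter]
      intro i
      simpa using h i

theorem typeClass_eq {w : E k} (hw : ∀ i, w i ≠ 0) (r : ℝ) :
    typeClass (Gam k) r w = {w' | w' ∈ Metric.sphere (0 : E k) r ∧ ∀ i, w' i ≠ 0} := by
  ext w'
  constructor
  · rintro ⟨h1, h2, -⟩
    exact ⟨h1, (fullDim_iff w').1 h2⟩
  · rintro ⟨h1, h2⟩
    exact ⟨h1, (fullDim_iff w').2 h2, sameType hw h2⟩

theorem stratum_eq [Nonempty (Fin k)] {w : E k} (hw : ∀ i, w i ≠ 0) {r : ℝ} (hr : 0 < r)
    (hwr : w ∈ Metric.sphere (0 : E k) r) :
    stratum (Gam k) r w = {x | ∀ i, 0 < x i * w i} ∩ Metric.sphere (0 : E k) r := by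
  rw [stratum, typeClass_eq hw]
  set C : Set (E k) := {w' | w' ∈ Metric.sphere (0 : E k) r ∧ ∀ i, w' i ≠ 0}
  have hwC : w ∈ C := ⟨hwr, hw⟩
  have hww : ∀ i, 0 < w i * w i := fun i => mul_self_pos.2 (hw i)
  apply Set.Subset.antisymm
  · intro x hx
    have hsub := connectedComponentIn_subset C w
    refine ⟨?_, (hsub hx).1⟩
    intro i
    by_contra hcon
    push Not at hcon
    have hpre : IsPreconnected (connectedComponentIn C w) := isPreconnected_connectedComponentIn
    have hcont : ContinuousOn (fun y : E k => y i * w i) (connectedComponentIn C w) :=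
      ((PiLp.continuous_apply 2 _ i).mul continuous_const).continuousOn
    have h0 := hpre.intermediate_value hx (mem_connectedComponentIn hwC) hcont
      ⟨hcon, (hww i).le⟩
    obtain ⟨y, hy, hy0⟩ := h0
    rcases mul_eq_zero.1 hy0 with h | h
    · exact (hsub hy).2 i h
    · exact hw i h
  · have hpre : IsPreconnected ({x : E k | ∀ i, 0 < x i * w i} ∩ Metric.sphere (0 : E k) r) := by
      have himg : {x : E k | ∀ i, 0 < x i * w i} ∩ Metric.sphere (0 : E k) r =
          (fun x : E k => (r * ‖x‖⁻¹) • x) '' {x : E k | ∀ i, 0 < x i * w i} := by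
        ext x
        constructor
        · rintro ⟨h1, h2⟩
          rw [mem_sphere_zero_iff_norm] at h2
          refine ⟨x, h1, ?_⟩
          simp only [h2, mul_inv_cancel₀ hr.ne', one_smul]
        · rintro ⟨y, hy, rfl⟩
          have hy0 : y ≠ 0 := by
            rintro rfl
            have := hy (Classical.arbitrary _)
            simp at this
          have hn : 0 < ‖y‖ := norm_pos_iff.2 hy0
          have hpos : 0 < r * ‖y‖⁻¹ := by positivity
          refine ⟨?_, ?_⟩
          · intro i
            simp only [PiLp.smul_apply, smul_eq_mul]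
            rw [mul_assoc]
            exact mul_pos hpos (hy i)
          · rw [mem_sphere_zero_iff_norm, norm_smul, Real.norm_eq_abs, abs_of_pos hpos, mul_assoc,
              inv_mul_cancel₀ hn.ne', mul_one]
      rw [himg]
      have hconv : Convex ℝ {x : E k | ∀ i, 0 < x i * w i} := by
        intro x hx y hy a b ha hb hab i
        simp only [PiLp.add_apply, PiLp.smul_apply, smul_eq_mul]
        have h1 := hx i
        have h2 := hy i
        rcases ha.lt_or_eq with h | h
        · have := mul_pos h h1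
          have := mul_nonneg hb h2.le
          nlinarith
        · have hb1 : b = 1 := by linarith
          rw [← h, hb1]; linarith
      apply hconv.isPreconnected.image
      refine ContinuousOn.smul (f := fun x : E k => r * ‖x‖⁻¹) (g := fun x : E k => x) ?_
        continuousOn_id
      apply ContinuousOn.mul continuousOn_const
      apply ContinuousOn.inv₀ continuous_norm.continuousOn
      intro y hy hy0
      rw [norm_eq_zero] at hy0
      have := hy (Classical.arbitrary _)
      rw [hy0] at this
      simp at this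
    apply hpre.subset_connectedComponentIn ⟨hww, hwr⟩
    rintro x ⟨h1, h2⟩
    refine ⟨h2, fun i hi => ?_⟩
    have := h1 i
    rw [hi, zero_mul] at this
    exact lt_irrefl _ this

end Pool.Agent.V11122.Box
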