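import Pool.Agent.V11122.Box.Basic

set_option autoImplicit false

/-! The Colin de Verdière weights of a box in dimensions 2 and 3: all edges have the same weight. -/

open MeasureTheory
open scoped InnerProductSpace

namespace Pool.Agent.V11122.Box

variable {k : ℕ}

theorem pt_ne_zero {w : E k} (hw : ∀ i, w i ≠ 0) (ε : Fin k → Bool) (i : Fin k) :
    pt w ε i ≠ 0 := by
  intro h0
  have := abs_pt w ε i
  rw [h0, abs_zero] at this
  exact hw i (abs_eq_zero.1 this.symm)

theorem mem_dualFace {w : E k} (hw : ∀ i, w i ≠ 0) {ε δ : Fin k → Bool} {i : Fin k}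
    (hi : ε i ≠ δ i) (hrest : ∀ j, j ≠ i → ε j = δ j) (z : E k) :
    z ∈ dualFace (orbPoly (Gam k) w) (pt w ε) (pt w δ) ↔
      z i = 0 ∧ (∀ j, 0 ≤ pt w ε j * z j) ∧ ∑ j, pt w ε j * z j = 1 := by
  have hdi : pt w δ i = -pt w ε i := by rw [pt_apply, pt_apply, sg_ne hi]; ring
  have hdj : ∀ j, j ≠ i → pt w δ j = pt w ε j := fun j hj => by
    rw [pt_apply, pt_apply, hrest j hj]
  have hsum : ∀ z : E k, ⟪pt w δ, z⟫_ℝ = ⟪pt w ε, z⟫_ℝ - 2 * (pt w ε i * z i) := by
    intro z
    rw [inner_eq, inner_eq, ← Finset.add_sum_erase _ _ (Finset.mem_univ i),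
      ← Finset.add_sum_erase _ (fun j => pt w ε j * z j) (Finset.mem_univ i), hdi]
    have : ∑ j ∈ Finset.univ.erase i, pt w δ j * z j =
        ∑ j ∈ Finset.univ.erase i, pt w ε j * z j := by
      apply Finset.sum_congr rfl
      intro j hj
      rw [hdj j (Finset.ne_of_mem_erase hj)]
    rw [this]
    ring
  constructor
  · rintro ⟨hp, h1, h2⟩
    rw [hsum, h1] at h2
    have h3 : pt w ε i * z i = 0 := by linarith
    have hz : z i = 0 := (mul_eq_zero.1 h3).resolve_left (pt_ne_zero hw ε i)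
    refine ⟨hz, ?_, by rw [← inner_eq]; exact h1⟩
    intro j
    -- flip coordinate j
    have h4 := hp _ (pt_mem w (Function.update ε j (!ε j)))
    have h5 : ⟪pt w (Function.update ε j (!ε j)), z⟫_ℝ =
        ⟪pt w ε, z⟫_ℝ - 2 * (pt w ε j * z j) := by
      rw [inner_eq, inner_eq, ← Finset.add_sum_erase _ _ (Finset.mem_univ j),
        ← Finset.add_sum_erase _ (fun m => pt w ε m * z m) (Finset.mem_univ j)]
      have e1 : pt w (Function.update ε j (!ε j)) j = -pt w ε j := by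
        rw [pt_apply, pt_apply, Function.update_self, sg_ne (a := ε j) (b := !ε j) (by simp)]
        ring
      have : ∑ m ∈ Finset.univ.erase j, pt w (Function.update ε j (!ε j)) m * z m =
          ∑ m ∈ Finset.univ.erase j, pt w ε m * z m := by
        apply Finset.sum_congr rfl
        intro m hm
        rw [pt_apply, pt_apply, Function.update_of_ne (Finset.ne_of_mem_erase hm)]
      rw [this, e1]
      ring
    rw [h5, h1] at h4
    linarith
  · rintro ⟨hz, hpos, h1⟩
    rw [← inner_eq] at h1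
    refine ⟨?_, h1, by rw [hsum, h1, hz]; ring⟩
    intro x hx
    rw [mem_orbPoly] at hx
    rw [inner_eq]
    rw [inner_eq] at h1
    rw [← h1]
    apply Finset.sum_le_sum
    intro j _
    calc x j * z j ≤ |x j * z j| := le_abs_self _
      _ = |x j| * |z j| := abs_mul _ _
      _ ≤ |w j| * |z j| := mul_le_mul_of_nonneg_right (hx j) (abs_nonneg _)
      _ = |pt w ε j * z j| := by rw [abs_mul, abs_pt]
      _ = pt w ε j * z j := abs_of_nonneg (hpos j)

theorem denom {w : E k} {ε δ : Fin k → Bool} {i : Fin k} {S : ℝ}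
    (hS : ∀ x : E k, (∀ j, j ≠ i → x j = pt w ε j) →
      ⟪x, pt w ε⟫_ℝ = x i * pt w ε i + S)
    (hi : ε i ≠ δ i) (hrest : ∀ j, j ≠ i → ε j = δ j) :
    ‖pt w ε‖ * ‖pt w δ‖ * Real.sin (InnerProductGeometry.angle (pt w ε) (pt w δ)) =
      2 * |w i| * Real.sqrt S := by
  have hdi : pt w δ i = -pt w ε i := by rw [pt_apply, pt_apply, sg_ne hi]; ring
  have hdj : ∀ j, j ≠ i → pt w δ j = pt w ε j := fun j hj => by
    rw [pt_apply, pt_apply, hrest j hj]
  have hsq : pt w ε i * pt w ε i = |w i| ^ 2 := by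
    rw [← abs_pt w ε i, sq, abs_mul_abs_self]
  have h1 : ⟪pt w ε, pt w ε⟫_ℝ = |w i| ^ 2 + S := by
    rw [hS (pt w ε) (fun j _ => rfl), hsq]
  have h2 : ⟪pt w ε, pt w δ⟫_ℝ = -|w i| ^ 2 + S := by
    rw [real_inner_comm, hS (pt w δ) hdj, hdi, neg_mul, hsq]
  have h3 : ⟪pt w δ, pt w δ⟫_ℝ = |w i| ^ 2 + S := by
    have : ⟪pt w δ, pt w δ⟫_ℝ = ⟪pt w ε, pt w ε⟫_ℝ := by
      rw [inner_eq, inner_eq]
      apply Finset.sum_congr rfl
      intro j _
      rw [← abs_mul_abs_self, abs_pt, ← abs_pt w ε, abs_mul_abs_self]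
    rw [this, h1]
  have h4 := InnerProductGeometry.sin_angle_mul_norm_mul_norm (pt w ε) (pt w δ)
  rw [h1, h2, h3] at h4
  have h5 : (|w i| ^ 2 + S) * (|w i| ^ 2 + S) - (-|w i| ^ 2 + S) * (-|w i| ^ 2 + S) =
      (2 * |w i|) ^ 2 * S := by ring
  rw [h5, Real.sqrt_mul (sq_nonneg _), Real.sqrt_sq (by positivity)] at h4
  rw [← h4]
  ring

theorem fin2 (i : Fin 2) : ∃ j, j ≠ i ∧ (∀ m, m = i ∨ m = j) ∧
    (∀ f : Fin 2 → ℝ, ∑ m, f m = f i + f j) ∧ (∀ f : Fin 2 → ℝ, ∏ m, f m = f i * f j) := by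
  fin_cases i
  · refine ⟨1, by decide, by decide, fun f => ?_, fun f => ?_⟩
    · rw [Fin.sum_univ_two]; rfl
    · rw [Fin.prod_univ_two]; rfl
  · refine ⟨0, by decide, by decide, fun f => ?_, fun f => ?_⟩
    · rw [Fin.sum_univ_two, add_comm]; rfl
    · rw [Fin.prod_univ_two, mul_comm]; rfl

theorem fin3 (i : Fin 3) : ∃ j l, j ≠ i ∧ l ≠ i ∧ j ≠ l ∧ (∀ m, m = i ∨ m = j ∨ m = l) ∧
    (∀ f : Fin 3 → ℝ, ∑ m, f m = f i + f j + f l) ∧
    (∀ f : Fin 3 → ℝ, ∏ m, f m = f i * f j * f l) := by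
  fin_cases i
  · refine ⟨1, 2, by decide, by decide, by decide, by decide, fun f => ?_, fun f => ?_⟩
    · rw [Fin.sum_univ_three]; rfl
    · rw [Fin.prod_univ_three]; rfl
  · refine ⟨0, 2, by decide, by decide, by decide, by decide, fun f => ?_, fun f => ?_⟩
    · rw [Fin.sum_univ_three]
      change f 0 + f 1 + f 2 = f 1 + f 0 + f 2
      ring
    · rw [Fin.prod_univ_three]
      change f 0 * f 1 * f 2 = f 1 * f 0 * f 2
      ring
  · refine ⟨0, 1, by decide, by decide, by decide, by decide, fun f => ?_, fun f => ?_⟩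
    · rw [Fin.sum_univ_three]
      change f 0 + f 1 + f 2 = f 2 + f 0 + f 1
      ring
    · rw [Fin.prod_univ_three]
      change f 0 * f 1 * f 2 = f 2 * f 0 * f 1
      ring

theorem cdv2 {w : E 2} (hw : ∀ i, w i ≠ 0) {ε δ : Fin 2 → Bool} (h : Adj ε δ) :
    cdv (orbPoly (Gam 2) w) (pt w ε) (pt w δ) = -(1 / (2 * ∏ m, |w m|)) := by
  obtain ⟨i, hi, hrest⟩ := h
  obtain ⟨j, hji, hm, hsum, hprod⟩ := fin2 i
  have hxj := pt_ne_zero hw ε j
  rw [cdv, if_pos ((isEdge_iff hw ε δ).2 ⟨i, hi, hrest⟩)]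
  have hF : dualFace (orbPoly (Gam 2) w) (pt w ε) (pt w δ) =
      {EuclideanSpace.single j (pt w ε j)⁻¹} := by
    ext z
    rw [mem_dualFace hw hi hrest, Set.mem_singleton_iff, hsum]
    constructor
    · rintro ⟨h0, -, h1⟩
      rw [h0, mul_zero, zero_add] at h1
      ext m
      rcases hm m with rfl | rfl
      · rw [h0]; simp [hji.symm]
      · rw [eq_comm, PiLp.single_apply, if_pos rfl]
        exact inv_eq_of_mul_eq_one_right h1
    · rintro rfl
      refine ⟨by simp [hji.symm], ?_, ?_⟩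
      · intro m
        rcases hm m with rfl | rfl
        · simp [hji.symm]
        · simp only [PiLp.single_apply, if_true]
          rw [mul_inv_cancel₀ hxj]; exact zero_le_one
      · simp only [PiLp.single_apply, if_true, hji.symm, if_false]
        rw [mul_inv_cancel₀ hxj]; ring
  have hden := denom (w := w) (ε := ε) (δ := δ) (i := i) (S := |w j| ^ 2) (by
    intro x hx
    rw [inner_eq, hsum, hx j hji, ← abs_pt w ε j, sq_abs]
    ring) hi hrest
  rw [hF, hden]
  have h0 : ((2 : ℕ) : ℝ) - 2 = 0 := by norm_num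
  rw [h0, Measure.hausdorffMeasure_zero_singleton, Real.sqrt_sq (abs_nonneg _), hprod]
  simp only [ENNReal.toReal_one]
  congr 2
  ring

theorem cdv3 {w : E 3} (hw : ∀ i, w i ≠ 0) {ε δ : Fin 3 → Bool} (h : Adj ε δ) :
    cdv (orbPoly (Gam 3) w) (pt w ε) (pt w δ) = -(1 / (2 * ∏ m, |w m|)) := by
  obtain ⟨i, hi, hrest⟩ := h
  obtain ⟨j, l, hji, hli, hjl, hm, hsum, hprod⟩ := fin3 i
  have hxj := pt_ne_zero hw ε j
  have hxl := pt_ne_zero hw ε l
  rw [cdv, if_pos ((isEdge_iff hw ε δ).2 ⟨i, hi, hrest⟩)]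
  have hF : dualFace (orbPoly (Gam 3) w) (pt w ε) (pt w δ) =
      segment ℝ (EuclideanSpace.single j (pt w ε j)⁻¹) (EuclideanSpace.single l (pt w ε l)⁻¹) := by
    ext z
    rw [mem_dualFace hw hi hrest, hsum]
    constructor
    · rintro ⟨h0, hpos, h1⟩
      rw [h0, mul_zero, zero_add] at h1
      refine ⟨pt w ε j * z j, pt w ε l * z l, hpos j, hpos l, h1, ?_⟩
      ext m
      simp only [PiLp.add_apply, PiLp.smul_apply, smul_eq_mul, PiLp.single_apply]
      rcases hm m with rfl | rfl | rfl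
      · rw [h0]; simp [hji.symm, hli.symm]
      · simp only [if_true, hjl, if_false]
        field_simp
        ring
      · simp only [if_true, hjl.symm, if_false]
        field_simp
        ring
    · rintro ⟨a, b, ha, hb, hab, rfl⟩
      refine ⟨by simp [hji.symm, hli.symm], ?_, ?_⟩
      · intro m
        simp only [PiLp.add_apply, PiLp.smul_apply, smul_eq_mul, PiLp.single_apply]
        rcases hm m with rfl | rfl | rfl
        · simp [hji.symm, hli.symm]
        · simp only [if_true, hjl, if_false]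
          have : pt w ε m * (a * (pt w ε m)⁻¹ + b * 0) = a := by field_simp; ring
          rw [this]; exact ha
        · simp only [if_true, hjl.symm, if_false]
          have : pt w ε m * (a * 0 + b * (pt w ε m)⁻¹) = b := by field_simp; ring
          rw [this]; exact hb
      · simp only [PiLp.add_apply, PiLp.smul_apply, smul_eq_mul, PiLp.single_apply,
          if_true, hji.symm, hli.symm, hjl, hjl.symm, if_false]
        field_simp
        linarith
  have hden := denom (w := w) (ε := ε) (δ := δ) (i := i) (S := |w j| ^ 2 + |w l| ^ 2) (by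
    intro x hx
    rw [inner_eq, hsum, hx j hji, hx l hli, ← abs_pt w ε j, ← abs_pt w ε l, sq_abs, sq_abs]
    ring) hi hrest
  have hwj : 0 < |w j| := abs_pos.2 (hw j)
  have hwl : 0 < |w l| := abs_pos.2 (hw l)
  have hwi : 0 < |w i| := abs_pos.2 (hw i)
  have hS : 0 < |w j| ^ 2 + |w l| ^ 2 := by positivity
  have hlen : dist (EuclideanSpace.single j (pt w ε j)⁻¹ : E 3)
      (EuclideanSpace.single l (pt w ε l)⁻¹) =
      Real.sqrt (|w j| ^ 2 + |w l| ^ 2) / (|w j| * |w l|) := by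
    rw [EuclideanSpace.dist_eq, hsum]
    simp only [PiLp.single_apply, if_true, hji.symm, hli.symm, hjl, hjl.symm, if_false]
    rw [Real.dist_eq, Real.dist_eq, Real.dist_eq]
    have : |(0 : ℝ) - 0| ^ 2 + |(pt w ε j)⁻¹ - 0| ^ 2 + |0 - (pt w ε l)⁻¹| ^ 2 =
        (|w j| ^ 2 + |w l| ^ 2) / (|w j| * |w l|) ^ 2 := by
      rw [sub_zero, sub_zero, zero_sub, abs_neg, abs_inv, abs_inv, abs_pt, abs_pt]
      field_simp
      simp
      ring
    rw [this, Real.sqrt_div hS.le, Real.sqrt_sq (by positivity)]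
  rw [hF, hden]
  have h0 : ((3 : ℕ) : ℝ) - 2 = 1 := by norm_num
  rw [h0, hausdorffMeasure_segment, edist_dist, ENNReal.toReal_ofReal dist_nonneg, hlen, hprod]
  have hs : 0 < Real.sqrt (|w j| ^ 2 + |w l| ^ 2) := Real.sqrt_pos.2 hS
  congr 1
  field_simp

end Pool.Agent.V11122.Box
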